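import Mathlib
import Pool.Agent.W845.Cyc.Facts2

/-!
# The Peres conjecture fails for convolution walks on cycles

There are sets `S_k ⊆ ℤ/N_k`, `N_k → ∞`, such that the convolution walks driven by the uniform
measures on `S_k` are ergodic (and the `S_k` are symmetric and do not contain `0`, so these are
simple random walks on connected circulant graphs) and satisfy `T_rel / T_mix(1/2) → 0`, but
have no total variation cutoff, and not even a pre-cutoff.
-/

open Finset Filter Topology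

namespace Pool.Agent.Results.MP_ee50b4_pr.CycleNoPreCutoff

open Pool.Agent.W845.Cyc Pool.Agent.Helper394

/-- Total variation cutoff of the sequence of convolution walks driven by `μ k`:
`T_mix(ε) / T_mix(1-ε) → 1` for every `ε ∈ (0, 1/2)`. -/
def HasCutoff (N : ℕ → ℕ) [∀ k, NeZero (N k)] (μ : ∀ k, ZMod (N k) → ℝ) : Prop :=
  ∀ ε : ℝ, 0 < ε → ε < 1 / 2 →
    Tendsto (fun k => (tmix (μ k) ε : ℝ) / (tmix (μ k) (1 - ε) : ℝ)) atTop (𝓝 1)

/-- Total variation pre-cutoff: for some constant `C` (not depending on `ε`), for every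
`ε ∈ (0, 1/2)` one has `T_mix(ε) ≤ C T_mix(1-ε)` for all large `k`. -/
def HasPreCutoff (N : ℕ → ℕ) [∀ k, NeZero (N k)] (μ : ∀ k, ZMod (N k) → ℝ) : Prop :=
  ∃ C : ℝ, ∀ ε : ℝ, 0 < ε → ε < 1 / 2 →
    ∀ᶠ k in atTop, (tmix (μ k) ε : ℝ) ≤ C * (tmix (μ k) (1 - ε) : ℝ)

/-- There are symmetric sets `S_k ⊆ ℤ/N_k \ {0}`, `N_k → ∞`, such that the convolution walks
driven by the uniform measures on `S_k` are ergodic and satisfy `T_rel / T_mix(1/2) → 0`, but
have neither a total variation cutoff nor even a total variation pre-cutoff. -/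
theorem result :
    ∃ (N : ℕ → ℕ) (_ : ∀ k, NeZero (N k)) (S : ∀ k, Finset (ZMod (N k))),
      Tendsto N atTop atTop ∧
      (∀ k, (0 : ZMod (N k)) ∉ S k ∧ ∀ s ∈ S k, -s ∈ S k) ∧
      (∀ k, IsProb (unifOn (S k)) ∧ Ergodic (unifOn (S k))) ∧
      Tendsto (fun k => trel (unifOn (S k)) / (tmix (unifOn (S k)) (1 / 2) : ℝ)) atTop (𝓝 0) ∧
      ¬ HasCutoff N (fun k => unifOn (S k)) ∧
      ¬ HasPreCutoff N (fun k => unifOn (S k)) := by
  choose N hN S hTN hS using fun k : ℕ => exists_bad2 (k + 64) (k + 64) (by omega) (by omega)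
  have hkey : ∀ C : ℝ, ∃ ε : ℝ, 0 < ε ∧ ε < 1 / 2 ∧
      ∀ᶠ k in atTop, C * (tmix (unifOn (S k)) (1 - ε) : ℝ) < (tmix (unifOn (S k)) ε : ℝ) := by
    intro C
    obtain ⟨M, hM⟩ := exists_nat_gt (6 * |C| + 8)
    have hM8 : 8 ≤ M := by
      have : (8 : ℝ) < M := by
        have := abs_nonneg C
        linarith
      exact_mod_cast this.le
    set ε : ℝ := (3 / 4 : ℝ) ^ M / 2 with hε
    have hε0 : 0 < ε := by positivity
    have hε1 : ε ≤ 1 / 10 := by
      have h1 : (3 / 4 : ℝ) ^ M ≤ (3 / 4 : ℝ) ^ 8 :=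
        pow_le_pow_of_le_one (by norm_num) (by norm_num) hM8
      have h2 : (3 / 4 : ℝ) ^ 8 ≤ 1 / 5 := by norm_num
      linarith
    refine ⟨ε, hε0, by linarith, ?_⟩
    obtain ⟨k0, hk0⟩ := exists_nat_gt (2 / ε)
    filter_upwards [eventually_ge_atTop k0, eventually_ge_atTop M] with k hk hkM
    have hk' : (k0 : ℝ) ≤ ((k + 64 : ℕ) : ℝ) := by
      have : k0 ≤ k + 64 := by omega
      exact_mod_cast this
    have hqpos : (0 : ℝ) < ((k + 64 : ℕ) : ℝ) := by positivity
    have h1 : ε + 2 / ((k + 64 : ℕ) : ℝ) < (3 / 4 : ℝ) ^ M := by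
      have h2 : 2 / ((k + 64 : ℕ) : ℝ) < ε := by
        rw [div_lt_iff₀ hqpos]
        have h3 : 2 / ε < ((k + 64 : ℕ) : ℝ) := lt_of_lt_of_le hk0 hk'
        rw [div_lt_iff₀ hε0] at h3
        linarith
      have h3 : (3 / 4 : ℝ) ^ M = 2 * ε := by rw [hε]; ring
      rw [h3]; linarith
    have h2 := bad2_tmix_ge (T := k + 64) (q := k + 64) (by omega) (by omega) (hS k) M
      (by omega) ε hε0 h1
    have h3 := bad2_tmix_le (T := k + 64) (q := k + 64) (by omega) (by omega) (hS k) ε hε0 hε1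
    have h4 : (M : ℝ) * ((k + 64 : ℕ) : ℝ) < (tmix (unifOn (S k)) ε : ℝ) := by exact_mod_cast h2
    have hT64 : (64 : ℝ) ≤ ((k + 64 : ℕ) : ℝ) := by
      have : 64 ≤ k + 64 := by omega
      exact_mod_cast this
    set T : ℝ := ((k + 64 : ℕ) : ℝ) with hT
    have h5 : (tmix (unifOn (S k)) (1 - ε) : ℝ) ≤ 5 * T := by nlinarith
    have h6 : (0 : ℝ) ≤ (tmix (unifOn (S k)) (1 - ε) : ℝ) := by positivity
    calc C * (tmix (unifOn (S k)) (1 - ε) : ℝ) ≤ |C| * (tmix (unifOn (S k)) (1 - ε) : ℝ) :=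
          mul_le_mul_of_nonneg_right (le_abs_self C) h6
      _ ≤ |C| * (5 * T) := mul_le_mul_of_nonneg_left h5 (abs_nonneg C)
      _ ≤ M * T := by
          have := abs_nonneg C
          nlinarith
      _ < _ := h4
  refine ⟨N, hN, S, ?_, ?_, ?_, ?_, ?_, ?_⟩
  · refine tendsto_atTop_mono (fun k => ?_) tendsto_id
    have := hTN k
    simp only [id]
    omega
  · exact fun k => ⟨(hS k).zero, (hS k).neg⟩
  · exact fun k => ⟨unifOn_prob _ ((hS k).nonempty (by omega) (by omega)),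
      bad2_ergodic (by omega) (hS k)⟩
  · -- `T_rel ≤ 4` and `T_mix(1/2) ≥ k + 64`
    have h1 : ∀ k : ℕ, ((k : ℝ)) ≤ (tmix (unifOn (S k)) (1 / 2) : ℝ) := by
      intro k
      have hq : (64 : ℝ) ≤ ((k + 64 : ℕ) : ℝ) := by
        have : 64 ≤ k + 64 := by omega
        exact_mod_cast this
      have h2 := bad2_tmix_ge (T := k + 64) (q := k + 64) (by omega) (by omega) (hS k) 1
        (by omega) (1 / 2) (by norm_num) (by
          have : 2 / ((k + 64 : ℕ) : ℝ) ≤ 2 / 64 :=
            div_le_div_of_nonneg_left (by norm_num) (by norm_num) hq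
          norm_num at this ⊢
          linarith)
      have h3 : k ≤ tmix (unifOn (S k)) (1 / 2) := by omega
      exact_mod_cast h3
    have h2 : ∀ k, 0 ≤ trel (unifOn (S k)) ∧ trel (unifOn (S k)) ≤ 4 := by
      intro k
      have ha := lamStar_nonneg (unifOn (S k))
      have hb := bad2_lamStar (by omega) (by omega) (hS k)
      rw [trel]
      constructor
      · apply div_nonneg (by norm_num); linarith
      · rw [div_le_iff₀ (by linarith)]; linarith
    have h3 : Tendsto (fun k : ℕ => (4 : ℝ) / (k : ℝ)) atTop (𝓝 0) :=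
      tendsto_const_div_atTop_nhds_zero_nat 4
    refine squeeze_zero' (Eventually.of_forall fun k =>
      div_nonneg (h2 k).1 (by positivity)) ?_ h3
    filter_upwards [eventually_ge_atTop 1] with k hk
    have hk' : (0 : ℝ) < k := by exact_mod_cast hk
    exact div_le_div₀ (by norm_num) (h2 k).2 hk' (h1 k)
  · intro hcut
    obtain ⟨ε, hε0, hε1, hev⟩ := hkey 2
    have h1 := hcut ε hε0 hε1
    have h2 := h1.eventually (gt_mem_nhds (show (1 : ℝ) < 2 by norm_num))
    obtain ⟨k, hk1, hk2⟩ := (hev.and h2).exists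
    rcases Nat.eq_zero_or_pos (tmix (unifOn (S k)) (1 - ε)) with h0 | h0
    · -- impossible: at time `0` the distance is larger than `1 - ε`
      have h3 : ∀ᶠ k in atTop, (1 / 2 : ℝ) <
          (tmix (unifOn (S k)) ε : ℝ) / (tmix (unifOn (S k)) (1 - ε) : ℝ) :=
        h1.eventually (lt_mem_nhds (by norm_num))
      obtain ⟨k', hk1', hk2', hk3'⟩ := (hev.and (h2.and h3)).exists
      rcases Nat.eq_zero_or_pos (tmix (unifOn (S k')) (1 - ε)) with h0' | h0'
      · rw [h0'] at hk3'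
        simp at hk3'
        linarith
      · have h4 : (0 : ℝ) < (tmix (unifOn (S k')) (1 - ε) : ℝ) := by exact_mod_cast h0'
        rw [div_lt_iff₀ h4] at hk2'
        linarith
    · have h4 : (0 : ℝ) < (tmix (unifOn (S k)) (1 - ε) : ℝ) := by exact_mod_cast h0
      rw [div_lt_iff₀ h4] at hk2
      linarith
  · rintro ⟨C, hC⟩
    obtain ⟨ε, hε0, hε1, hev⟩ := hkey C
    obtain ⟨k, hk1, hk2⟩ := (hev.and (hC ε hε0 hε1)).exists
    linarith

end Pool.Agent.Results.MP_ee50b4_pr.CycleNoPreCutoff
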